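import Pool.Agent.L5helper20.DG.Perm

/-!
`sig r` of a partial permutation matrix is an elementary symmetric polynomial.
-/

set_option autoImplicit false

namespace L5helper11.NC

open Finset MvPolynomial L5helper59.DC Pool.Agent.L5helper20.DG

theorem ex_injective {σ : Type*} : Function.Injective (ex (σ := σ)) := by
  classical
  intro A B h
  ext x
  have h1 := DFunLike.congr_fun h x
  rw [ex_apply, ex_apply] at h1
  by_cases hA : x ∈ A <;> by_cases hB : x ∈ B <;> simp_all

theorem lin_single {R γ : Type*} [CommRing R] [Fintype γ] [DecidableEq γ] (c : γ) (x : R) :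
    lin (fun j => if j = c then x else 0) = C x * X c := by
  unfold lin
  rw [sum_eq_single c]
  · simp only [if_true]
  · intro j _ hj
    simp only [if_neg hj, C_0, zero_mul]
  · intro h
    exact absurd (mem_univ c) h

theorem sig_partial {R ρ γ : Type*} [CommRing R] [Fintype ρ] [Fintype γ] [DecidableEq γ]
    (r : ℕ) (f : ρ → γ) (hf : Function.Injective f) (x : ρ → R) :
    sig r (fun i j => if j = f i then x i else 0) =
      ∑ I ∈ powersetCard r (univ : Finset ρ), ∏ i ∈ I, x i := by
  classical
  unfold sig sqf esr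
  simp only [lin_single, prod_mul_distrib, coeff_sum]
  rw [sum_comm]
  refine sum_congr rfl fun S hS => ?_
  have h1 : (∏ i ∈ S, (C (x i) : MvPolynomial γ R)) = C (∏ i ∈ S, x i) := (map_prod C _ _).symm
  have h2 : (∏ i ∈ S, (X (f i) : MvPolynomial γ R)) = monomial (ex (S.map ⟨f, hf⟩)) 1 := by
    rw [← prod_X, prod_map]
    rfl
  rw [h1, h2]
  have h3 : ∀ D ∈ powersetCard r (univ : Finset γ),
      coeff (∑ j ∈ D, Finsupp.single j 1) (C (∏ i ∈ S, x i) *
        (monomial (ex (S.map ⟨f, hf⟩)) 1 : MvPolynomial γ R)) =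
      if D = S.map ⟨f, hf⟩ then ∏ i ∈ S, x i else 0 := by
    intro D _
    change coeff (ex D) _ = _
    rw [coeff_C_mul, coeff_monomial]
    by_cases h : D = S.map ⟨f, hf⟩
    · rw [if_pos h, if_pos (by rw [h]), mul_one]
    · rw [if_neg h, if_neg (fun h' => h (ex_injective h').symm), mul_zero]
  rw [sum_congr rfl h3, sum_ite_eq' , if_pos]
  rw [mem_powersetCard] at hS ⊢
  exact ⟨subset_univ _, by rw [card_map]; exact hS.2⟩

end L5helper11.NC
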