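import Pool.Agent.L5lead.NC.Defs
import Pool.Agent.L5helper20.DG.Perm

/-!
The sum of all subpermanents with product weights is `sig`.
-/

set_option autoImplicit false

namespace L5helper11.NC

open Finset MvPolynomial L5helper59.DC Pool.Agent.L5helper20.DG L5lead.NC

/-- the coefficients after a scaling of the variables -/
theorem coeff_scale {γ R : Type*} [Fintype γ] [CommRing R] (c : γ → R) (P : MvPolynomial γ R)
    (m : γ →₀ ℕ) :
    coeff m (aeval (fun j => C (c j) * X j) P : MvPolynomial γ R) =
      (∏ j, c j ^ m j) * coeff m P := by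
  classical
  induction P using MvPolynomial.induction_on' with
  | monomial u a =>
    have h1 : (aeval (fun j => C (c j) * X j) (monomial u a) : MvPolynomial γ R) =
        monomial u ((∏ j, c j ^ u j) * a) := by
      rw [aeval_monomial, Finsupp.prod_fintype _ _ (fun _ => pow_zero _)]
      simp only [mul_pow, prod_mul_distrib]
      rw [monomial_eq (s := u) (a := (∏ j, c j ^ u j) * a),
        Finsupp.prod_fintype _ _ (fun _ => pow_zero _)]
      simp only [algebraMap_eq, map_mul, map_prod, map_pow]
      ring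
    rw [h1, coeff_monomial, coeff_monomial]
    by_cases h : u = m
    · rw [if_pos h, if_pos h, h]
    · rw [if_neg h, if_neg h, mul_zero]
  | add p q hp hq => rw [map_add, coeff_add, hp, hq, coeff_add, mul_add]

theorem lin_scale {γ R : Type*} [Fintype γ] [CommRing R] (a : R) (c : γ → R) (y : γ → R) :
    lin (fun j => a * c j * y j) = C a * (aeval (fun j => C (c j) * X j) (lin y) :
      MvPolynomial γ R) := by
  unfold lin
  rw [map_sum, mul_sum]
  refine sum_congr rfl fun j _ => ?_
  have h1 : (aeval (fun j => C (c j) * X j) (C (y j) * X j : MvPolynomial γ R) :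
      MvPolynomial γ R) = C (y j) * (C (c j) * X j) := by
    rw [map_mul, aeval_X, aeval_C, algebraMap_eq]
  rw [h1, C_mul, C_mul]
  ring

/-- scaling of the rows and columns -/
theorem pm_scale {α β R : Type*} [Fintype β] [CommRing R] (N : α → β → R) (a : α → R)
    (c : β → R) (S : Finset α) (T : Finset β) :
    pm (fun i j => a i * c j * N i j) S T =
      (∏ i ∈ S, a i) * (∏ j ∈ T, c j) * pm N S T := by
  classical
  unfold pm
  simp only [lin_scale, prod_mul_distrib]
  have h1 : (∏ i ∈ S, (C (a i) : MvPolynomial β R)) = C (∏ i ∈ S, a i) := (map_prod C _ _).symm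
  rw [h1, coeff_C_mul, ← map_prod, coeff_scale, mul_assoc]
  congr 2
  have h2 : ∀ j, c j ^ (∑ j ∈ T, Finsupp.single j 1 : β →₀ ℕ) j = if j ∈ T then c j else 1 := by
    intro j
    have h3 := ex_apply T j
    unfold ex at h3
    rw [h3]
    split_ifs <;> simp
  rw [prod_congr rfl (fun j _ => h2 j), prod_ite_mem, univ_inter]

theorem sig_eq_pm {ρ γ R : Type*} [Fintype ρ] [Fintype γ] [DecidableEq γ] [CommRing R] (r : ℕ)
    (y : ρ → γ → R) :
    sig r y = ∑ I ∈ powersetCard r (univ : Finset ρ), ∑ J ∈ powersetCard r (univ : Finset γ),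
      pm y I J := by
  unfold sig sqf esr pm
  simp only [coeff_sum]
  rw [sum_comm]

/-- all subsets instead of the subsets with `r` elements -/
theorem sum_all {ρ γ R : Type*} [Fintype ρ] [Fintype γ] [DecidableEq ρ] [DecidableEq γ]
    [CommRing R] (r : ℕ) (f : Finset ρ → Finset γ → R) :
    ∑ I : Finset ρ, ∑ J : Finset γ, (if J.card = r ∧ I.card = r then f I J else 0) =
      ∑ I ∈ powersetCard r (univ : Finset ρ), ∑ J ∈ powersetCard r (univ : Finset γ), f I J := by
  have h1 : ∀ I : Finset ρ, ∑ J : Finset γ, (if J.card = r ∧ I.card = r then f I J else 0) =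
      if I.card = r then ∑ J ∈ powersetCard r (univ : Finset γ), f I J else 0 := by
    intro I
    by_cases hI : I.card = r
    · rw [if_pos hI]
      have h2 : (powersetCard r (univ : Finset γ)) = univ.filter fun J => J.card = r := by
        ext J
        simp [mem_powersetCard]
      rw [h2, sum_filter]
      refine sum_congr rfl fun J _ => ?_
      by_cases hJ : J.card = r
      · rw [if_pos ⟨hJ, hI⟩, if_pos hJ]
      · rw [if_neg (fun h => hJ h.1), if_neg hJ]
    · rw [if_neg hI]
      exact sum_eq_zero fun J _ => if_neg fun h => hI h.2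
  rw [sum_congr rfl (fun I _ => h1 I)]
  have h3 : (powersetCard r (univ : Finset ρ)) = univ.filter fun I => I.card = r := by
    ext I
    simp [mem_powersetCard]
  rw [h3, sum_filter]

/-- The sum over `z` of the weighted subpermanents. -/
theorem sum_multi {ι ρ γ : Type} [Fintype ρ] [Fintype γ] [DecidableEq ρ] [DecidableEq γ]
    (r n : ℕ) (Y : ρ → γ → MvPolynomial ι ℂ) (a : ρ → ℂ) (c : γ → ℂ) (t : ℂ) :
    ∑ I : Finset ρ, ∑ J : Finset γ, (if J.card = r ∧ I.card = r then
        C (∑ z ∈ range n, (t ^ r) ^ (z ^ 2) * ((∏ i ∈ I, a i) * ∏ j ∈ J, c j) ^ z) * pm Y I J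
        else 0) =
      ∑ z ∈ range n, sig r (fun i j => C (t ^ (z ^ 2) * (a i * c j) ^ z) * Y i j) := by
  rw [sum_all r (fun I J => C (∑ z ∈ range n, (t ^ r) ^ (z ^ 2) *
    ((∏ i ∈ I, a i) * ∏ j ∈ J, c j) ^ z) * pm Y I J)]
  have h1 : ∀ z, sig r (fun i j => C (t ^ (z ^ 2) * (a i * c j) ^ z) * Y i j) =
      ∑ I ∈ powersetCard r (univ : Finset ρ), ∑ J ∈ powersetCard r (univ : Finset γ),
        C ((t ^ r) ^ (z ^ 2) * ((∏ i ∈ I, a i) * ∏ j ∈ J, c j) ^ z) * pm Y I J := by
    intro z
    rw [sig_eq_pm]
    refine sum_congr rfl fun I hI => sum_congr rfl fun J _ => ?_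
    have h2 := pm_scale Y (fun i => (C (t ^ (z ^ 2) * a i ^ z) : MvPolynomial ι ℂ))
      (fun j => C (c j ^ z)) I J
    have h3 : (fun (i : ρ) (j : γ) => (C (t ^ (z ^ 2) * a i ^ z) : MvPolynomial ι ℂ) *
        C (c j ^ z) * Y i j) = fun i j => C (t ^ (z ^ 2) * (a i * c j) ^ z) * Y i j := by
      funext i j
      rw [← C_mul, mul_pow, mul_assoc]
    rw [h3] at h2
    rw [h2, ← map_prod, ← map_prod, ← C_mul]
    congr 2
    rw [prod_mul_distrib, prod_const, (mem_powersetCard.1 hI).2, prod_pow, prod_pow, mul_pow,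
      ← pow_mul, ← pow_mul, mul_comm (z ^ 2) r, mul_assoc]
  simp only [h1, map_sum, sum_mul]
  rw [sum_comm' (s := range n) (t := fun _ => powersetCard r (univ : Finset ρ))
    (t' := powersetCard r (univ : Finset ρ)) (s' := fun _ => range n) (by simp [and_comm])]
  refine sum_congr rfl fun I _ => ?_
  rw [sum_comm' (s := range n) (t := fun _ => powersetCard r (univ : Finset γ))
    (t' := powersetCard r (univ : Finset γ)) (s' := fun _ => range n) (by simp [and_comm])]

end L5helper11.NC
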